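import Pool.Agent.helper61.CSW.W.SpecW

/-! # csw:KXP (MP_70a088_an, class S, block W): the kernel with poles at the fixed points (helper85) -/

set_option autoImplicit false

open Complex Metric Set Filter Topology MeasureTheory
open YPPS (fd fdd pre TT CV IsCyc rho Exact)
open MPS (BB)
open Pool.Agent.helper98.ILF (juliaSet fatouSet)

noncomputable section

open CSS (SE SV JJ)

namespace YW

theorem KXP_sum {f : SE} (X : NP f) (g : ℂ → ℂ) : ∑ e ∈ ES f X, g e = g X.p₁ + (g X.p₂ + ∑ v ∈ SV f, g v) := by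
  unfold ES
  rw [Finset.sum_insert, Finset.sum_insert]
  · exact X.ns2
  · rw [Finset.mem_insert]
    rintro (h | h)
    · exact X.ne h
    · exact X.ns1 h

/-- the interpolation coefficients. -/
theorem KXP_l {f : SE} (X : NP f) (a : ℂ) :
    (a - X.p₂) / (X.p₁ - X.p₂) + (a - X.p₁) / (X.p₂ - X.p₁) = 1 ∧
    (a - X.p₂) / (X.p₁ - X.p₂) * X.p₁ + (a - X.p₁) / (X.p₂ - X.p₁) * X.p₂ = a := by
  have h1 : X.p₁ - X.p₂ ≠ 0 := sub_ne_zero.2 X.ne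
  have h2 : X.p₂ - X.p₁ ≠ 0 := sub_ne_zero.2 X.ne.symm
  have h3 : X.p₂ - X.p₁ = -(X.p₁ - X.p₂) := by ring
  constructor
  · rw [h3, div_neg]; field_simp; ring
  · rw [h3, div_neg]; field_simp; ring

theorem KXP_eq {f : SE} (X : NP f) (a z : ℂ) :
    KX X a z = EXQ.q a z - (a - X.p₂) / (X.p₁ - X.p₂) * EXQ.q X.p₁ z - (a - X.p₁) / (X.p₂ - X.p₁) * EXQ.q X.p₂ z := by
  obtain ⟨h1, h2⟩ := KXP_l X a
  unfold KX EXQ.q
  generalize (a - X.p₂) / (X.p₁ - X.p₂) = l₁ at *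
  generalize (a - X.p₁) / (X.p₂ - X.p₁) = l₂ at *
  simp only [div_eq_mul_inv]
  generalize (z - a)⁻¹ = u₀
  generalize (z - X.p₁)⁻¹ = u₁
  generalize (z - X.p₂)⁻¹ = u₂
  generalize z⁻¹ = u₃
  generalize (z - 1)⁻¹ = u₄
  linear_combination (-u₃) * h1 + (u₃ - u₄) * h2

theorem KXP_p1 {f : SE} (X : NP f) (z : ℂ) : KX X X.p₁ z = 0 := by
  have h1 : X.p₁ - X.p₂ ≠ 0 := sub_ne_zero.2 X.ne
  unfold KX
  rw [div_self h1]
  simp

theorem KXP_p2 {f : SE} (X : NP f) (z : ℂ) : KX X X.p₂ z = 0 := by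
  have h1 : X.p₂ - X.p₁ ≠ 0 := sub_ne_zero.2 X.ne.symm
  unfold KX
  rw [div_self h1]
  simp

theorem KXP_gr (a : ℂ) : 1 + ‖a‖ ≤ EXQ.gr a := by
  unfold EXQ.gr
  have h1 : 0 ≤ Real.log (1 + ‖a‖) := Real.log_nonneg (by linarith [norm_nonneg a])
  have h2 : 0 ≤ ‖a‖ := norm_nonneg a
  nlinarith

/-- KXP: the kernel. -/
theorem KXP (hKER : EXQ.KER_stmt) (hVCN : EXQ.VCN_stmt) : KXP_stmt := by
  obtain ⟨C₁, hK⟩ := hKER
  obtain ⟨C₀, hC₀⟩ := hVCN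
  intro f X
  have hp : X.p₁ - X.p₂ ≠ 0 := sub_ne_zero.2 X.ne
  have hint : ∀ a, Integrable (KX X a) := by
    intro a
    have h1 : KX X a = fun z => EXQ.q a z - (a - X.p₂) / (X.p₁ - X.p₂) * EXQ.q X.p₁ z - (a - X.p₁) / (X.p₂ - X.p₁) * EXQ.q X.p₂ z :=
      funext fun z => KXP_eq X a z
    rw [h1]
    exact ((hK a).1.sub ((hK X.p₁).1.const_mul _)).sub ((hK X.p₂).1.const_mul _)
  refine ⟨hint, ?_, ?_, ?_⟩
  · set d : ℝ := ‖X.p₁ - X.p₂‖ with hd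
    have hd0 : 0 < d := norm_pos_iff.2 hp
    refine ⟨|C₀| * (1 + (1 + ‖X.p₂‖) / d * EXQ.gr X.p₁ + (1 + ‖X.p₁‖) / d * EXQ.gr X.p₂), ?_⟩
    intro μ hμ hμ1
    obtain ⟨hc, hb⟩ := hC₀ μ hμ hμ1
    have hqi : ∀ a, Integrable (fun z => μ z * EXQ.q a z) := by
      intro a
      exact (hK a).1.bdd_mul hμ.aestronglyMeasurable (Eventually.of_forall hμ1)
    have hV : ∀ a, VX X μ a = EXQ.V μ a - (a - X.p₂) / (X.p₁ - X.p₂) * EXQ.V μ X.p₁ - (a - X.p₁) / (X.p₂ - X.p₁) * EXQ.V μ X.p₂ := by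
      intro a
      have key : (fun z => μ z * KX X a z) = fun z => (μ z * EXQ.q a z - (a - X.p₂) / (X.p₁ - X.p₂) * (μ z * EXQ.q X.p₁ z)) -
          (a - X.p₁) / (X.p₂ - X.p₁) * (μ z * EXQ.q X.p₂ z) := by
        funext z
        rw [KXP_eq]
        ring
      have i1 : Integrable (fun z => μ z * EXQ.q a z - (a - X.p₂) / (X.p₁ - X.p₂) * (μ z * EXQ.q X.p₁ z)) := (hqi a).sub ((hqi X.p₁).const_mul _)
      have i2 : Integrable (fun z => (a - X.p₁) / (X.p₂ - X.p₁) * (μ z * EXQ.q X.p₂ z)) := (hqi X.p₂).const_mul _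
      have i3 : Integrable (fun z => (a - X.p₂) / (X.p₁ - X.p₂) * (μ z * EXQ.q X.p₁ z)) := (hqi X.p₁).const_mul _
      unfold VX EXQ.V
      rw [key, integral_sub i1 i2, integral_sub (hqi a) i3, integral_const_mul, integral_const_mul]
    refine ⟨?_, ?_, ?_, ?_, ?_⟩
    · have h1 : VX X μ = fun a => EXQ.V μ a - (a - X.p₂) / (X.p₁ - X.p₂) * EXQ.V μ X.p₁ - (a - X.p₁) / (X.p₂ - X.p₁) * EXQ.V μ X.p₂ := funext hV
      rw [h1]
      fun_prop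
    · intro a
      have hga := KXP_gr a
      have hna : 0 ≤ ‖a‖ := norm_nonneg a
      have hgr0 : ∀ b : ℂ, 0 ≤ EXQ.gr b := fun b => by linarith [KXP_gr b, norm_nonneg b]
      have hbb : ∀ b, ‖EXQ.V μ b‖ ≤ |C₀| * EXQ.gr b := fun b => (hb b).trans (mul_le_mul_of_nonneg_right (le_abs_self _) (hgr0 b))
      have hl : ∀ p : ℂ, ‖a - p‖ ≤ (1 + ‖p‖) * EXQ.gr a := by
        intro p
        have h1 : ‖a - p‖ ≤ ‖a‖ + ‖p‖ := norm_sub_le _ _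
        have h2 : 0 ≤ ‖p‖ := norm_nonneg p
        have h3 : (1 + ‖p‖) * (1 + ‖a‖) ≤ (1 + ‖p‖) * EXQ.gr a := mul_le_mul_of_nonneg_left hga (by linarith)
        nlinarith
      have h1 : ‖(a - X.p₂) / (X.p₁ - X.p₂) * EXQ.V μ X.p₁‖ ≤ (1 + ‖X.p₂‖) * EXQ.gr a / d * (|C₀| * EXQ.gr X.p₁) := by
        rw [norm_mul, norm_div, ← hd]
        exact mul_le_mul (div_le_div_of_nonneg_right (hl _) hd0.le) (hbb _) (norm_nonneg _) (div_nonneg (mul_nonneg (by positivity) (hgr0 _)) hd0.le)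
      have hd' : ‖X.p₂ - X.p₁‖ = d := by rw [hd, norm_sub_rev]
      have h2 : ‖(a - X.p₁) / (X.p₂ - X.p₁) * EXQ.V μ X.p₂‖ ≤ (1 + ‖X.p₁‖) * EXQ.gr a / d * (|C₀| * EXQ.gr X.p₂) := by
        rw [norm_mul, norm_div, hd']
        exact mul_le_mul (div_le_div_of_nonneg_right (hl _) hd0.le) (hbb _) (norm_nonneg _) (div_nonneg (mul_nonneg (by positivity) (hgr0 _)) hd0.le)
      rw [hV a]
      have h3 : ‖EXQ.V μ a - (a - X.p₂) / (X.p₁ - X.p₂) * EXQ.V μ X.p₁ - (a - X.p₁) / (X.p₂ - X.p₁) * EXQ.V μ X.p₂‖ ≤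
          ‖EXQ.V μ a‖ + ‖(a - X.p₂) / (X.p₁ - X.p₂) * EXQ.V μ X.p₁‖ + ‖(a - X.p₁) / (X.p₂ - X.p₁) * EXQ.V μ X.p₂‖ :=
        (norm_sub_le _ _).trans (add_le_add (norm_sub_le _ _) le_rfl)
      have h4 : |C₀| * (1 + (1 + ‖X.p₂‖) / d * EXQ.gr X.p₁ + (1 + ‖X.p₁‖) / d * EXQ.gr X.p₂) * EXQ.gr a =
          |C₀| * EXQ.gr a + (1 + ‖X.p₂‖) * EXQ.gr a / d * (|C₀| * EXQ.gr X.p₁) + (1 + ‖X.p₁‖) * EXQ.gr a / d * (|C₀| * EXQ.gr X.p₂) := by
        ring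
      rw [h4]
      linarith [hbb a]
    · unfold VX
      simp [KXP_p1]
    · unfold VX
      simp [KXP_p2]
    · refine ⟨X.p₂ / (X.p₁ - X.p₂) * EXQ.V μ X.p₁ + X.p₁ / (X.p₂ - X.p₁) * EXQ.V μ X.p₂, -(EXQ.V μ X.p₁) / (X.p₁ - X.p₂) - EXQ.V μ X.p₂ / (X.p₂ - X.p₁), fun a => ?_⟩
      rw [hV a]
      ring
  · intro c hc
    obtain ⟨h1, h2⟩ := hc
    refine Eventually.of_forall fun z => ?_
    rw [KXP_sum] at h1 h2
    unfold RS
    rw [KXP_sum]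
    have e1 : c X.p₁ = -∑ v ∈ SV f, c v * ((v - X.p₂) / (X.p₁ - X.p₂)) := by
      have h3 : ∑ v ∈ SV f, c v * ((v - X.p₂) / (X.p₁ - X.p₂)) = (∑ v ∈ SV f, c v * v - X.p₂ * ∑ v ∈ SV f, c v) / (X.p₁ - X.p₂) := by
        rw [Finset.mul_sum, ← Finset.sum_sub_distrib, Finset.sum_div]
        exact Finset.sum_congr rfl fun v _ => by ring
      rw [h3, eq_neg_iff_add_eq_zero]
      field_simp
      linear_combination h2 - X.p₂ * h1
    have hp2 : X.p₂ - X.p₁ ≠ 0 := sub_ne_zero.2 X.ne.symm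
    have e2 : c X.p₂ = -∑ v ∈ SV f, c v * ((v - X.p₁) / (X.p₂ - X.p₁)) := by
      have h3 : ∑ v ∈ SV f, c v * ((v - X.p₁) / (X.p₂ - X.p₁)) = (∑ v ∈ SV f, c v * v - X.p₁ * ∑ v ∈ SV f, c v) / (X.p₂ - X.p₁) := by
        rw [Finset.mul_sum, ← Finset.sum_sub_distrib, Finset.sum_div]
        exact Finset.sum_congr rfl fun v _ => by ring
      rw [h3, eq_neg_iff_add_eq_zero]
      field_simp
      linear_combination h2 - X.p₁ * h1
    rw [e1, e2, neg_div, neg_div, Finset.sum_div, Finset.sum_div, ← Finset.sum_neg_distrib, ← Finset.sum_neg_distrib, ← Finset.sum_add_distrib, ← Finset.sum_add_distrib]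
    refine Finset.sum_congr rfl fun v _ => ?_
    unfold KX
    ring
  · intro d
    classical
    set c : ℂ → ℂ := fun e => if e = X.p₁ then -∑ v ∈ SV f, d v * ((v - X.p₂) / (X.p₁ - X.p₂)) else
      if e = X.p₂ then -∑ v ∈ SV f, d v * ((v - X.p₁) / (X.p₂ - X.p₁)) else d e with hc
    have c1 : c X.p₁ = -∑ v ∈ SV f, d v * ((v - X.p₂) / (X.p₁ - X.p₂)) := by simp [hc]
    have c2 : c X.p₂ = -∑ v ∈ SV f, d v * ((v - X.p₁) / (X.p₂ - X.p₁)) := by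
      have h5 : ¬ X.p₂ = X.p₁ := X.ne.symm
      simp [hc, h5]
    have c3 : ∀ v ∈ SV f, c v = d v := by
      intro v hv
      have h5 : ¬ v = X.p₁ := fun h => X.ns1 (h ▸ hv)
      have h6 : ¬ v = X.p₂ := fun h => X.ns2 (h ▸ hv)
      simp [hc, h5, h6]
    refine ⟨c, ⟨?_, ?_⟩, c3⟩
    · rw [KXP_sum, c1, c2, Finset.sum_congr rfl c3, ← Finset.sum_neg_distrib, ← Finset.sum_neg_distrib, ← Finset.sum_add_distrib, ← Finset.sum_add_distrib]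
      refine Finset.sum_eq_zero fun v _ => ?_
      linear_combination (-d v) * (KXP_l X v).1
    · rw [KXP_sum, c1, c2, Finset.sum_congr rfl (fun v hv => by rw [c3 v hv] : ∀ v ∈ SV f, c v * v = d v * v), ← Finset.sum_neg_distrib, ← Finset.sum_neg_distrib,
        Finset.sum_mul, Finset.sum_mul, ← Finset.sum_add_distrib, ← Finset.sum_add_distrib]
      refine Finset.sum_eq_zero fun v _ => ?_
      linear_combination (-d v) * (KXP_l X v).2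

end YW
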